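import Pool.Agent.H93.RG.Defs
import Pool.Agent.H67.FG.Pro

/-!
# FG for blocks of size `r`, module PRO: the process is a function of low degree, and it is stuck only in `Z`
-/

set_option autoImplicit false
set_option linter.unusedSectionVars false

namespace Pool.Agent.H63.RG

open Finset Pool.Agent.H93.RG
open Pool.Agent.H67.FG (ind Alg ind_true ind_false ind_const_mem ind_not)

section

variable {r : ℕ} {V : Type} [Fintype V] [DecidableEq V]

theorem pro_mem_cov {M : Finset (Finset V)} {v : V} : v ∈ cov M ↔ ∃ e ∈ M, v ∈ e := by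
  simp only [cov, mem_filter, mem_univ, true_and]

theorem pro_isM_sub {M M' : Finset (Finset V)} (h : IsM r M') (hs : M ⊆ M') : IsM r M :=
  ⟨fun e he => h.1 e (hs he), fun e he f hf v hv hv' => h.2 e (hs he) f (hs hf) v hv hv'⟩

theorem pro_card_cov {M : Finset (Finset V)} (h : IsM r M) : (cov M).card ≤ r * M.card := by
  have h1 : cov M ⊆ M.biUnion id := by
    intro v hv
    obtain ⟨e, he, hve⟩ := pro_mem_cov.1 hv
    exact mem_biUnion.2 ⟨e, he, hve⟩
  have h2 : (M.biUnion id).card ≤ M.card * r := card_biUnion_le_card_mul _ _ _ fun e he => (h.1 e he).le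
  have h3 := card_le_card h1
  rw [mul_comm]
  omega

end

section

variable {r : ℕ} {V : Type} [Fintype V] [DecidableEq V]

theorem mem_tch {A : Finset V} {M : Finset (Finset V)} {e : Finset V} : e ∈ tch A M ↔ e ∈ M ∧ ∃ v ∈ A, v ∈ e := by
  unfold tch
  rw [mem_filter]

theorem cov_tch {A : Finset V} {M : Finset (Finset V)} : A ⊆ cov (tch A M) ↔ A ⊆ cov M := by
  constructor
  · intro h v hv
    obtain ⟨e, he, hve⟩ := pro_mem_cov.1 (h hv)
    exact pro_mem_cov.2 ⟨e, (mem_tch.1 he).1, hve⟩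
  · intro h v hv
    obtain ⟨e, he, hve⟩ := pro_mem_cov.1 (h hv)
    exact pro_mem_cov.2 ⟨e, mem_tch.2 ⟨he, v, hv, hve⟩, hve⟩

theorem wtn_spec {w : ℕ} {f : Finset (Finset V) → Option Bool} {π : Finset (Finset V)} (h : dec r w f π = none) :
    IsM r (wtn r w f π) ∧ (wtn r w f π).card ≤ w ∧ f (wtn r w f π) = some true ∧ Cmp r (wtn r w f π) π := by
  unfold dec at h
  split_ifs at h with h1 h2
  push Not at h2
  unfold wtn
  rw [dif_pos h2]
  exact h2.choose_spec

theorem card_cov_wtn (r w : ℕ) (f : Finset (Finset V) → Option Bool) (π : Finset (Finset V)) :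
    (cov (wtn r w f π)).card ≤ r * w := by
  unfold wtn
  split_ifs with h
  · exact (pro_card_cov h.choose_spec.1).trans (Nat.mul_le_mul_left _ h.choose_spec.2.1)
  · have h1 : cov (∅ : Finset (Finset V)) = ∅ := by
      simp [cov]
    rw [h1]
    simp

/-- the edges at the covered vertices of a matching: at most as many as vertices -/
theorem card_tch {A : Finset V} {M : Finset (Finset V)} (hM : IsM r M) : (tch A M).card ≤ A.card := by
  classical
  have h1 : tch A M ⊆ A.biUnion fun v => M.filter fun e => v ∈ e := by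
    intro e he
    obtain ⟨h2, v, hv, hve⟩ := mem_tch.1 he
    exact mem_biUnion.2 ⟨v, hv, mem_filter.2 ⟨h2, hve⟩⟩
  have h2 : (A.biUnion fun v => M.filter fun e => v ∈ e).card ≤ A.card * 1 := by
    refine card_biUnion_le_card_mul _ _ _ fun v _ => card_le_one.2 fun e he e' he' => ?_
    exact hM.2 e (mem_filter.1 he).1 e' (mem_filter.1 he').1 v (mem_filter.1 he).2 (mem_filter.1 he').2
  have h3 := card_le_card h1
  omega

/-- a decided value comes from a small part of `M` -/
theorem run_spec' {w : ℕ} {f : Finset (Finset V) → Option Bool} {M : Finset (Finset V)} (hM : IsM r M) (n : ℕ)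
    (π : Finset (Finset V)) (hπ : π ⊆ M) (b : Bool) (h : run r w f M n π = some b) :
    ∃ π', π ⊆ π' ∧ π' ⊆ M ∧ π'.card ≤ π.card + n * (r * w) ∧ dec r w f π' = some b := by
  induction n generalizing π with
  | zero => exact ⟨π, Subset.refl _, hπ, by omega, h⟩
  | succ n ih =>
    unfold run at h
    split_ifs at h with h1 h2
    · exact ⟨π, Subset.refl _, hπ, by omega, h⟩
    · have h3 : tch (cov (wtn r w f π)) M ⊆ M := fun e he => (mem_tch.1 he).1
      obtain ⟨π', e1, e2, e3, e4⟩ := ih (π ∪ tch (cov (wtn r w f π)) M) (union_subset hπ h3) h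
      refine ⟨π', subset_union_left.trans e1, e2, e3.trans ?_, e4⟩
      have h4 := card_union_le π (tch (cov (wtn r w f π)) M)
      have h5 := card_tch (A := cov (wtn r w f π)) hM
      have h6 := card_cov_wtn r w f π
      have h7 : (n + 1) * (r * w) = n * (r * w) + r * w := by ring
      omega

/-- a witness of falsity which stays compatible gets a new edge -/
theorem gain {w : ℕ} {f : Finset (Finset V) → Option Bool}
    (mono : ∀ M M', IsM r M' → M ⊆ M' → ∀ b, f M = some b → f M' = some b) {π δ s : Finset (Finset V)}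
    (hd : dec r w f π = none) (hδ : cov (wtn r w f π) ⊆ cov δ) (s1 : IsM r s) (s3 : f s = some false)
    (s4 : Cmp r s (π ∪ δ)) : (s ∩ π).card + 1 ≤ (s ∩ (π ∪ δ)).card := by
  obtain ⟨t1, t2, t3, t4⟩ := wtn_spec hd
  set t := wtn r w f π with ht
  -- `s` and `t` are not compatible
  have h1 : ¬ IsM r (s ∪ t) := by
    intro h
    have e1 := mono s (s ∪ t) h subset_union_left false s3
    have e2 := mono t (s ∪ t) h subset_union_right true t3
    rw [e1] at e2
    cases e2
  have h2 : ∃ e ∈ s, ∃ e' ∈ t, ∃ v, v ∈ e ∧ v ∈ e' ∧ e ≠ e' := by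
    by_contra hc
    push Not at hc
    apply h1
    refine ⟨fun e he => ?_, fun e he f' hf v hv hv' => ?_⟩
    · rcases mem_union.1 he with h | h
      · exact s1.1 e h
      · exact t1.1 e h
    · rcases mem_union.1 he with h | h <;> rcases mem_union.1 hf with h' | h'
      · exact s1.2 e h f' h' v hv hv'
      · exact hc e h f' h' v hv hv'
      · exact (hc f' h' e h v hv' hv).symm
      · exact t1.2 e h f' h' v hv hv'
  obtain ⟨e, he, e', he', v, hv, hv', hne⟩ := h2
  have h3 : v ∈ cov δ := hδ (pro_mem_cov.2 ⟨e', he', hv'⟩)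
  obtain ⟨e'', he'', hv''⟩ := pro_mem_cov.1 h3
  have h4 : e = e'' := s4.2 e (mem_union_left _ he) e'' (mem_union_right _ (mem_union_right _ he'')) v hv hv''
  have h5 : e ∉ π := fun h => hne (t4.2 e (mem_union_right _ h) e' (mem_union_left _ he') v hv hv')
  have h6 : s ∩ π ⊂ s ∩ (π ∪ δ) := by
    rw [ssubset_iff_of_subset (inter_subset_inter_left subset_union_left)]
    exact ⟨e, mem_inter.2 ⟨he, mem_union_right _ (h4 ▸ he'')⟩, fun h => h5 (mem_inter.1 h).2⟩
  exact card_lt_card h6

end

section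

variable {r : ℕ} {k Y V : Type} [Field k] [Fintype V] [DecidableEq V]

/-- one round: case distinction over the edges at the vertices of `A` -/
theorem ind_round (W : MW r k Y V) (A : Finset V) (P : Y → Prop) (Q : Finset (Finset V) → Y → Prop) (q : Prop)
    (h : ∀ y, P y ↔ (A ⊆ cov (W.M y) ∧ Q (tch A (W.M y)) y) ∨ (¬ A ⊆ cov (W.M y) ∧ q)) :
    (ind P : Y → k) = (∑ δ ∈ (univ : Finset (Finset (Finset V))).filter (fun δ => A ⊆ cov δ),
      ind (fun y => tch A (W.M y) = δ) * ind (Q δ)) +
      ind (fun _ => q) * ind (fun y => ¬ A ⊆ cov (W.M y)) := by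
  classical
  funext y
  rw [Pi.add_apply, Finset.sum_apply]
  by_cases hA : A ⊆ cov (W.M y)
  · rw [Finset.sum_eq_single (tch A (W.M y))]
    · have h1 : P y ↔ Q (tch A (W.M y)) y := by
        rw [h y]
        tauto
      simp only [ind, Pi.mul_apply, h1, if_true, one_mul, not_true_eq_false, hA, if_false, mul_zero, add_zero]
    · intro δ _ hδ
      have : ¬ tch A (W.M y) = δ := fun h => hδ h.symm
      simp [ind, this]
    · intro h2
      exact (h2 (mem_filter.2 ⟨mem_univ _, cov_tch.2 hA⟩)).elim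
  · rw [Finset.sum_eq_zero]
    · have h1 : P y ↔ q := by
        rw [h y]
        tauto
      simp only [ind, Pi.mul_apply, h1, hA, not_false_eq_true, if_true, mul_one, zero_add]
    · intro δ hδ
      have h1 := (mem_filter.1 hδ).2
      have : ¬ tch A (W.M y) = δ := fun h2 => hA (cov_tch.1 (h2 ▸ h1))
      simp [ind, this]

theorem ind_cov_mem (W : MW r k Y V) (A : Finset V) : ind (fun y => ¬ A ⊆ cov (W.M y)) ∈ W.Deg (A.card * W.c) := by
  classical
  have h := ind_round W A (fun y => A ⊆ cov (W.M y)) (fun _ _ => True) False (fun y => by tauto)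
  rw [ind_not, h]
  refine (W.Deg _).sub_mem (W.one _) ((W.Deg _).add_mem ((W.Deg _).sum_mem fun δ _ => ?_) ?_)
  · rw [ind_true (P := fun _ : Y => True) fun _ => trivial, mul_one]
    exact W.loc A δ
  · rw [ind_false (P := fun _ : Y => False) fun _ => id, zero_mul]
    exact (W.Deg _).zero_mem

/-- degree of the process -/
theorem run_deg' (𝓦 : MW r k Y V) (w : ℕ) (f : Finset (Finset V) → Option Bool) (n : ℕ) (π : Finset (Finset V))
    (b : Option Bool) : ind (fun y => run r w f (𝓦.M y) n π = b) ∈ 𝓦.Deg (n * (r * w) * 𝓦.c) := by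
  induction n generalizing π with
  | zero =>
    unfold run
    exact ind_const_mem 𝓦.toAlg _ _
  | succ n ih =>
    by_cases hd : (dec r w f π).isSome
    · have h1 : (fun y => run r w f (𝓦.M y) (n + 1) π = b) = fun _ : Y => dec r w f π = b := by
        funext y
        unfold run
        rw [if_pos hd]
      rw [h1]
      exact ind_const_mem 𝓦.toAlg _ _
    · have h1 := ind_round (k := k) 𝓦 (cov (wtn r w f π)) (fun y => run r w f (𝓦.M y) (n + 1) π = b)
        (fun δ y => run r w f (𝓦.M y) n (π ∪ δ) = b) (none = b) (fun y => by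
          rw [run, if_neg hd]
          by_cases hA : cov (wtn r w f π) ⊆ cov (𝓦.M y)
          · simp [hA]
          · simp [hA])
      rw [h1]
      have h2 : (n + 1) * (r * w) * 𝓦.c = r * w * 𝓦.c + n * (r * w) * 𝓦.c := by ring
      have h3 : (cov (wtn r w f π)).card * 𝓦.c ≤ r * w * 𝓦.c := Nat.mul_le_mul_right _ (card_cov_wtn r w f π)
      refine (𝓦.Deg _).add_mem ((𝓦.Deg _).sum_mem fun δ _ => ?_) ?_
      · rw [h2]
        exact 𝓦.mul (𝓦.mono h3 (𝓦.loc _ δ)) (ih _)
      · refine 𝓦.mono (a := 0 + (cov (wtn r w f π)).card * 𝓦.c) (by omega) (𝓦.mul (ind_const_mem 𝓦.toAlg _ _) ?_)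
        exact ind_cov_mem 𝓦 _

/-- `n` rounds from `π`, when the compatible witnesses of falsity have many edges in `π` -/
theorem run_stk_aux (𝓦 : MW r k Y V) {w : ℕ} {f : Finset (Finset V) → Option Bool}
    (mono : ∀ M M', IsM r M' → M ⊆ M' → ∀ b, f M = some b → f M' = some b)
    (hK1 : 2 * (r * w * 𝓦.c) + 𝓦.c ≤ 𝓦.K) (n : ℕ) (π : Finset (Finset V))
    (hK2 : (n + 1) * (r * w) * 𝓦.c ≤ 𝓦.K)
    (hπ : ∀ s, IsM r s → s.card ≤ w → f s = some false → Cmp r s π → w + 1 ≤ (s ∩ π).card + n) :
    ind (fun y => run r w f (𝓦.M y) n π = none) ∈ 𝓦.Z := by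
  classical
  induction n generalizing π with
  | zero =>
    rw [ind_false]
    · exact 𝓦.Z.zero_mem
    · intro y h
      unfold run dec at h
      rw [if_pos] at h
      · cases h
      · intro t t1 t2 t3 t4
        have h1 := hπ t t1 t2 t3 t4
        have h2 := card_le_card (inter_subset_left : t ∩ π ⊆ t)
        omega
  | succ n ih =>
    by_cases hd : (dec r w f π).isSome
    · rw [ind_false]
      · exact 𝓦.Z.zero_mem
      · intro y h
        rw [run, if_pos hd] at h
        rw [h] at hd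
        cases hd
    · have hdn : dec r w f π = none := by simpa using hd
      have h1 := ind_round (k := k) 𝓦 (cov (wtn r w f π)) (fun y => run r w f (𝓦.M y) (n + 1) π = none)
        (fun δ y => run r w f (𝓦.M y) n (π ∪ δ) = none) True (fun y => by
          rw [run, if_neg hd]
          by_cases hA : cov (wtn r w f π) ⊆ cov (𝓦.M y)
          · simp [hA]
          · simp [hA])
      rw [h1]
      have h3 : (cov (wtn r w f π)).card * 𝓦.c ≤ r * w * 𝓦.c := Nat.mul_le_mul_right _ (card_cov_wtn r w f π)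
      have h2 : (n + 1 + 1) * (r * w) * 𝓦.c = r * w * 𝓦.c + (n + 1) * (r * w) * 𝓦.c := by ring
      have h4 : (n + 1) * (r * w) * 𝓦.c = r * w * 𝓦.c + n * (r * w) * 𝓦.c := by ring
      refine 𝓦.Z.add_mem (𝓦.Z.sum_mem fun δ hδ => ?_) ?_
      · refine 𝓦.zmul (a := (cov (wtn r w f π)).card * 𝓦.c) (b := n * (r * w) * 𝓦.c) ?_ (𝓦.loc _ δ) (run_deg' 𝓦 w f n _ none) ?_
        · omega
        · refine ih (π ∪ δ) (by omega) fun s s1 s2 s3 s4 => ?_
          have h5 := gain mono hdn (mem_filter.1 hδ).2 s1 s3 s4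
          have h6 : Cmp r s π := pro_isM_sub s4 (union_subset_union_right subset_union_left)
          have h7 := hπ s s1 s2 s3 h6
          omega
      · rw [ind_true (P := fun _ : Y => True) fun _ => trivial, one_mul]
        exact 𝓦.stk _ (by omega)

/-- the process is stuck only in `Z` -/
theorem run_stk' (𝓦 : MW r k Y V) {w R : ℕ} {f : Finset (Finset V) → Option Bool} (hf : Val r w R f) (hw : 1 ≤ w)
    (hK : 3 * ((w + 1) * (r * w) * 𝓦.c) + 𝓦.c ≤ 𝓦.K) :
    ind (fun y => run r w f (𝓦.M y) (w + 1) ∅ = none) ∈ 𝓦.Z := by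
  have h1 : (w + 1) * (r * w) * 𝓦.c = w * (r * w) * 𝓦.c + r * w * 𝓦.c := by ring
  have h2 : 1 * (r * w) * 𝓦.c ≤ w * (r * w) * 𝓦.c := Nat.mul_le_mul_right _ (Nat.mul_le_mul_right _ hw)
  have h3 : (w + 1 + 1) * (r * w) * 𝓦.c = (w + 1) * (r * w) * 𝓦.c + r * w * 𝓦.c := by ring
  refine run_stk_aux 𝓦 hf.mono ?_ (w + 1) ∅ ?_ fun s _ _ _ _ => by omega
  · omega
  · omega

end

section

variable {V : Type} [Fintype V] [DecidableEq V] {r : ℕ}

/-- a decided value comes from a small part of `M` -/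
theorem run_spec (hr : 1 ≤ r) (w : ℕ) (f : Finset (Finset V) → Option Bool) {M : Finset (Finset V)} (hM : IsM r M)
    (n : ℕ) (b : Bool) (h : run r w f M n ∅ = some b) :
    ∃ π, π ⊆ M ∧ π.card ≤ n * (r * w) ∧ dec r w f π = some b := by
  obtain ⟨π, _, h1, h2, h3⟩ := run_spec' hM n ∅ (empty_subset _) b h
  exact ⟨π, h1, by simpa using h2, h3⟩

variable {k Y : Type} [Field k]

/-- the process is a function of low degree -/
theorem run_deg (hr : 1 ≤ r) (𝓦 : MW r k Y V) (w : ℕ) (f : Finset (Finset V) → Option Bool) (n : ℕ)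
    (π : Finset (Finset V)) (b : Option Bool) :
    ind (fun y => run r w f (𝓦.M y) n π = b) ∈ 𝓦.Deg (n * (r * w) * 𝓦.c) :=
  run_deg' 𝓦 w f n π b

/-- the process is stuck only in `Z` -/
theorem run_stk (hr : 1 ≤ r) (𝓦 : MW r k Y V) {w : ℕ} {f : Finset (Finset V) → Option Bool}
    (hf : Val r w (2 * r * r * w) f) (hw : 1 ≤ w) (hK : 3 * ((w + 1) * (r * w) * 𝓦.c) + 𝓦.c ≤ 𝓦.K) :
    ind (fun y => run r w f (𝓦.M y) (w + 1) ∅ = none) ∈ 𝓦.Z :=
  run_stk' 𝓦 hf hw hK

end

end Pool.Agent.H63.RG
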